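import Pool.Agent.H41.Ev.Defs

/-!
# The supremum of `F_q` is at least `1 - δ` for `q` close to 1 (MP_898b17_an, module M6)
-/

open MeasureTheory Set Metric Filter Topology ContDiff
open scoped ENNReal RealInnerProductSpace Manifold

namespace Pool.Agent.H63.Ev

open Pool.Agent.H41.Ev

lemma osq_unit_eq : osq 1 (0, 0) =
    Complex.measurableEquivRealProd ⁻¹' (Ioo (0 : ℝ) 1 ×ˢ Ioo (0 : ℝ) 1) := by
  ext z
  simp [osq, Complex.measurableEquivRealProd, and_assoc]

lemma volume_unit : volume (osq 1 (0, 0)) = 1 := by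
  rw [osq_unit_eq, Complex.volume_preserving_equiv_real_prod.measure_preimage
    (measurableSet_Ioo.prod measurableSet_Ioo).nullMeasurableSet, Measure.volume_eq_prod,
    Measure.prod_prod]
  simp

lemma isOpen_unit : IsOpen (osq 1 (0, 0)) := by
  unfold osq
  simp only [Int.cast_zero, zero_mul, mul_one]
  refine (isOpen_lt continuous_const Complex.continuous_re).inter
    ((isOpen_lt Complex.continuous_re continuous_const).inter
      ((isOpen_lt continuous_const Complex.continuous_im).inter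
        (isOpen_lt Complex.continuous_im continuous_const)))

lemma exists_test {U : Set ℂ} (hU : IsOpen U) (hvol : volume U = 1) {ε : ℝ} (hε : 0 < ε)
    (hε1 : ε < 1) : ∃ χ : ℂ → ℝ, IsTest U χ ∧ (∀ z, 0 ≤ χ z) ∧ (∀ z, χ z ≤ 1) ∧
      1 - ε ≤ ∫ z, χ z := by
  obtain ⟨K, hKU, hK, hKv⟩ := hU.exists_lt_isCompact (μ := volume)
    (r := ENNReal.ofReal (1 - ε)) (by
      rw [hvol, ← ENNReal.ofReal_one, ENNReal.ofReal_lt_ofReal_iff one_pos]
      linarith)
  obtain ⟨V, hV, hKV, hVU, hVc⟩ := exists_open_between_and_isCompact_closure hK hU hKU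
  obtain ⟨f, hf0, hf1, hf⟩ := exists_contMDiffMap_zero_one_of_isClosed (n := ⊤) 𝓘(ℝ, ℂ)
    hV.isClosed_compl hK.isClosed (disjoint_left.2 fun x hx hx' => hx (hKV hx'))
  have hsup : Function.support (f : ℂ → ℝ) ⊆ V := by
    intro z hz
    by_contra h
    exact hz (hf0 h)
  have hts : tsupport (f : ℂ → ℝ) ⊆ closure V := closure_mono hsup
  have hcs : HasCompactSupport (f : ℂ → ℝ) :=
    HasCompactSupport.of_support_subset_isCompact hVc (hsup.trans subset_closure)
  have hcd : ContDiff ℝ ∞ (f : ℂ → ℝ) := f.contMDiff.contDiff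
  refine ⟨f, ⟨hcd, hcs, hts.trans hVU⟩, fun z => (hf z).1, fun z => (hf z).2, ?_⟩
  have hint : Integrable (f : ℂ → ℝ) volume := hcd.continuous.integrable_of_hasCompactSupport hcs
  have h1 : (volume K).toReal ≤ ∫ z, f z := by
    have h2 : ∫ z in K, (1 : ℝ) = (volume K).toReal := by
      simp [Measure.real]
    rw [← h2]
    calc ∫ z in K, (1 : ℝ) = ∫ z in K, f z := by
          apply setIntegral_congr_fun hK.measurableSet
          intro z hz
          exact (hf1 hz).symm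
      _ ≤ ∫ z, f z := setIntegral_le_integral hint (Eventually.of_forall fun z => (hf z).1)
  refine le_trans ?_ h1
  rw [← ENNReal.ofReal_le_iff_le_toReal hK.measure_lt_top.ne]
  exact hKv.le

lemma gradient_const_mul {f : ℂ → ℝ} (hf : Differentiable ℝ f) (c : ℝ) (z : ℂ) :
    gradient (fun z => c * f z) z = c • gradient f z := by
  unfold gradient
  rw [fderiv_const_mul (hf z), map_smulₛₗ]
  rfl

/-- M6 from the perforation theorem. -/
theorem limit_one_of
    (perforation : ∀ (U : Set ℂ), IsOpen U → volume U < ⊤ → ∀ h : ℝ, 0 < h →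
      ∀ κ : ℤ × ℤ →₀ ℝ, (∀ a, 0 ≤ κ a) → (∀ a, κ a ≠ 0 → osq h a ⊆ U) → ∀ Λ : ℝ,
      (∀ φ, IsTest U φ →
        Λ * ∫ z, φ z ^ 2 ≤ (∫ z, ‖gradient φ z‖ ^ 2) + ∫ z, κ (cellOf h z) * φ z ^ 2) →
      ∀ φ₀ : ℂ → ℝ, IsTest U φ₀ → ∀ η : ℝ, 0 < η →
      ∃ Ω' : Set ℂ, IsOpen Ω' ∧ Ω' ⊆ U ∧ RQ Ω' (Λ - η) ∧
        TLow Ω' (2 * (∫ z, φ₀ z) - (∫ z, ‖gradient φ₀ z‖ ^ 2) -
          (∫ z, κ (cellOf h z) * φ₀ z ^ 2) - η))
    {δ : ℝ} (hδ : 0 < δ) : ∃ q₀ : ℝ, 1 < q₀ ∧ ∀ q, 1 < q → q < q₀ → ∀ S : ℝ,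
    NoBetter (E := ℂ) q S → 1 - δ ≤ S := by
  set ε : ℝ := min δ 1 / 8 with hε
  have hε0 : 0 < ε := by positivity
  have hεδ : 8 * ε ≤ δ := by rw [hε]; linarith [min_le_left δ 1]
  have hε1 : 8 * ε ≤ 1 := by rw [hε]; linarith [min_le_right δ 1]
  set U : Set ℂ := osq 1 (0, 0) with hUdef
  have hU : IsOpen U := isOpen_unit
  have hvol : volume U = 1 := volume_unit
  obtain ⟨χ, hχ, hχ0, hχ1, hχi⟩ := exists_test hU hvol hε0 (by linarith)
  have hχint : Integrable χ volume := hχ.1.continuous.integrable_of_hasCompactSupport hχ.2.1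
  set G : ℝ := ∫ z, ‖gradient χ z‖ ^ 2 with hG
  have hG0 : 0 ≤ G := integral_nonneg fun z => by positivity
  set K : ℝ := 1 + G / ε with hK
  have hK1 : 1 ≤ K := by rw [hK]; linarith [div_nonneg hG0 hε0.le]
  have hK0 : 0 < K := by linarith
  have hGK : G ≤ ε * K := by
    rw [hK, mul_add, mul_div_cancel₀ _ hε0.ne']
    linarith
  have hcell : ∀ z ∈ U, Finsupp.single ((0 : ℤ), (0 : ℤ)) K (cellOf 1 z) = K := by
    intro z hz
    obtain ⟨h1, h2, h3, h4⟩ := hz
    simp only [Int.cast_zero, zero_mul, zero_add, mul_one] at h1 h2 h3 h4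
    have e1 : ⌊z.re⌋ = 0 := Int.floor_eq_zero_iff.2 ⟨h1.le, h2⟩
    have e2 : ⌊z.im⌋ = 0 := Int.floor_eq_zero_iff.2 ⟨h3.le, h4⟩
    simp [cellOf, e1, e2]
  have hzero : ∀ φ : ℂ → ℝ, IsTest U φ → ∀ z ∉ U, φ z = 0 := by
    intro φ hφ z hz
    by_contra h
    exact hz (hφ.2.2 (subset_tsupport _ h))
  have hpt : ∀ φ : ℂ → ℝ, IsTest U φ → ∀ z,
      Finsupp.single ((0 : ℤ), (0 : ℤ)) K (cellOf 1 z) * φ z ^ 2 = K * φ z ^ 2 := by
    intro φ hφ z
    by_cases hz : z ∈ U
    · rw [hcell z hz]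
    · rw [hzero φ hφ z hz]; simp
  set η : ℝ := ε / K with hη
  have hη0 : 0 < η := by positivity
  set φ₀ : ℂ → ℝ := fun z => (1 / K) * χ z with hφ₀
  have hφt : IsTest U φ₀ := by
    refine ⟨contDiff_const.mul hχ.1, hχ.2.1.mul_left, ?_⟩
    refine subset_trans ?_ hχ.2.2
    exact tsupport_mul_subset_right
  obtain ⟨Ω, hΩ, hΩU, hRQ, hT⟩ := perforation U hU (by rw [hvol]; exact ENNReal.one_lt_top) 1
    one_pos (Finsupp.single (0, 0) K)
    (by
      intro a
      by_cases h : a = (0, 0)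
      · rw [h]; simp [hK0.le]
      · rw [Finsupp.single_eq_of_ne h])
    (by
      intro a ha
      by_cases h : a = (0, 0)
      · rw [h]
      · exact absurd (Finsupp.single_eq_of_ne h) ha)
    K
    (by
      intro φ hφ
      have : ∫ z, Finsupp.single ((0 : ℤ), (0 : ℤ)) K (cellOf 1 z) * φ z ^ 2 =
          K * ∫ z, φ z ^ 2 := by
        rw [← integral_const_mul]
        exact integral_congr_ae (Eventually.of_forall (hpt φ hφ))
      rw [this]
      have : 0 ≤ ∫ z, ‖gradient φ z‖ ^ 2 := integral_nonneg fun z => by positivity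
      linarith)
    φ₀ hφt η hη0
  set t : ℝ := 2 * (∫ z, φ₀ z) - (∫ z, ‖gradient φ₀ z‖ ^ 2) -
          (∫ z, Finsupp.single ((0 : ℤ), (0 : ℤ)) K (cellOf 1 z) * φ₀ z ^ 2) - η with ht
  -- lower bound for `t`
  have hI : ∫ z, φ₀ z = (1 / K) * ∫ z, χ z := by rw [← integral_const_mul]
  have hgr : ∫ z, ‖gradient φ₀ z‖ ^ 2 = (1 / K) ^ 2 * G := by
    rw [hG, ← integral_const_mul]
    congr 1
    ext z
    rw [hφ₀, gradient_const_mul (hχ.1.differentiable (by simp)), norm_smul, mul_pow,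
      Real.norm_eq_abs, sq_abs]
  have hsq : ∫ z, Finsupp.single ((0 : ℤ), (0 : ℤ)) K (cellOf 1 z) * φ₀ z ^ 2 ≤
      (1 / K) * ∫ z, χ z := by
    have h1 : ∫ z, Finsupp.single ((0 : ℤ), (0 : ℤ)) K (cellOf 1 z) * φ₀ z ^ 2 =
        (1 / K) * ∫ z, χ z ^ 2 := by
      rw [← integral_const_mul]
      congr 1
      ext z
      rw [hpt φ₀ hφt, hφ₀]
      field_simp
    rw [h1]
    have h2 : Integrable (fun z => χ z ^ 2) volume := by
      have : (fun z => χ z ^ 2) = fun z => χ z * χ z := by ext z; ring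
      rw [this]
      exact (hχ.1.continuous.mul hχ.1.continuous).integrable_of_hasCompactSupport
        hχ.2.1.mul_left
    have h3 : ∫ z, χ z ^ 2 ≤ ∫ z, χ z := by
      apply integral_mono h2 hχint
      intro z
      have := hχ0 z
      have := hχ1 z
      simp only
      nlinarith
    have : 0 ≤ 1 / K := by positivity
    gcongr
  have htl : (1 - 3 * ε) / K ≤ t := by
    have h1 : (1 / K) ^ 2 * G ≤ ε / K := by
      rw [div_pow, one_pow, one_div, inv_mul_le_iff₀ (by positivity)]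
      calc G ≤ ε * K := hGK
        _ = K ^ 2 * (ε / K) := by field_simp
    have h2 : (1 - ε) / K ≤ (1 / K) * ∫ z, χ z := by
      rw [div_eq_inv_mul, one_div]
      gcongr
    have h3 : (1 - 3 * ε) / K = (1 - ε) / K - ε / K - ε / K := by ring
    rw [h3, ht, hI, hgr]
    linarith
  have ht0 : 0 < t := lt_of_lt_of_le (div_pos (by linarith) hK0) htl
  have hηK : η ≤ ε * K := by
    rw [hη, div_le_iff₀ hK0]
    nlinarith
  have hc0 : 0 < K - η := by nlinarith
  have hct : 1 - 4 * ε ≤ (K - η) * t := by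
    have h1 : (1 - ε) * K ≤ K - η := by linarith
    have h2 : ((1 - ε) * K) * ((1 - 3 * ε) / K) ≤ (K - η) * t := by
      have : 0 ≤ (1 - 3 * ε) / K := div_nonneg (by linarith) hK0.le
      exact mul_le_mul h1 htl this hc0.le
    have h3 : ((1 - ε) * K) * ((1 - 3 * ε) / K) = (1 - ε) * (1 - 3 * ε) := by
      field_simp
    rw [h3] at h2
    nlinarith
  -- choice of `q₀`
  have hcont : Tendsto (fun q : ℝ => (K - η) * t ^ q) (𝓝 1) (𝓝 ((K - η) * t ^ (1 : ℝ))) :=
    (Real.continuousAt_const_rpow ht0.ne').const_mul (K - η)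
  rw [Real.rpow_one] at hcont
  have hev := hcont.eventually (lt_mem_nhds (show 1 - δ < (K - η) * t by linarith))
  obtain ⟨r, hr, hball⟩ := Metric.eventually_nhds_iff.1 hev
  refine ⟨1 + r, by linarith, ?_⟩
  intro q hq1 hq2 S hS
  have h1 := hS Ω hΩ (lt_of_le_of_lt (measure_mono hΩU) (by rw [hvol]; exact ENNReal.one_lt_top))
    (K - η) t hc0 ht0 hRQ hT
  have h2 : 1 - δ < (K - η) * t ^ q := hball (by
    rw [Real.dist_eq, abs_of_pos (by linarith)]; linarith)
  have h3 : (volume Ω).toReal ≤ 1 := by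
    have : volume Ω ≤ 1 := by rw [← hvol]; exact measure_mono hΩU
    exact ENNReal.toReal_le_of_le_ofReal zero_le_one (by simpa using this)
  have h4 : (volume Ω).toReal ^ (2 * q - 1) ≤ 1 :=
    Real.rpow_le_one ENNReal.toReal_nonneg h3 (by linarith)
  have h5 : 0 < (K - η) * t ^ q := mul_pos hc0 (Real.rpow_pos_of_pos ht0 q)
  have h6 : 0 ≤ (volume Ω).toReal ^ (2 * q - 1) := Real.rpow_nonneg ENNReal.toReal_nonneg _
  have hS0 : 0 < S := by
    by_contra h
    push Not at h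
    have := mul_nonpos_of_nonpos_of_nonneg h h6
    linarith
  nlinarith

end Pool.Agent.H63.Ev
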